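import Pool.Agent.Q227.AG.Growth
import Pool.Agent.W740.TU.FGM

set_option autoImplicit false

open Filter Topology Set Metric unitInterval

namespace Pool.Agent.Q227.AG

open Pool.Agent.W740.TC Pool.Agent.W740.TU

/-- For the path `γ` in `M` the displacements of the iterates `fⁿ ∘ γ`, measured in `ℝ` through
`u : M → ℝ/ℤ`, grow exponentially: for some `l > 1` there are arbitrarily large `n` such that a
lift `θ` to `ℝ` of the path `u ∘ fⁿ ∘ γ` satisfies `|θ 1 - θ 0| ≥ lⁿ`. -/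
def Grows {M : Type*} [TopologicalSpace M] (f : M → M) (u : M → AddCircle (1 : ℝ))
    (γ : C(I, M)) : Prop :=
  ∃ l : ℝ, 1 < l ∧ ∃ᶠ n : ℕ in atTop, ∃ θ : C(I, ℝ),
    (∀ t, ((θ t : ℝ) : AddCircle (1 : ℝ)) = u (f^[n] (γ t))) ∧ l ^ n ≤ |θ 1 - θ 0|

/-- lifts of paths in the torus -/
theorem exists_lift_path {k : ℕ} (p : C(I, Fin k → AddCircle (1 : ℝ))) :
    ∃ θ : C(I, Fin k → ℝ), ∀ t i, ((θ t i : ℝ) : AddCircle (1 : ℝ)) = p t i := by
  have h1 : ∀ i, ∃ Γ : C(I, ℝ), ∀ t, ((Γ t : ℝ) : AddCircle (1 : ℝ)) = p t i := by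
    intro i
    obtain ⟨e, he⟩ := QuotientAddGroup.mk_surjective (p 0 i)
    obtain ⟨Γ, hΓ, -⟩ := (AddCircle.isCoveringMap_coe (1 : ℝ)).exists_path_lifts
      (⟨fun t => p t i, (continuous_apply i).comp p.continuous⟩ : C(I, AddCircle (1 : ℝ))) e
      he.symm
    exact ⟨Γ, fun t => congrFun hΓ t⟩
  choose Γ hΓ using h1
  exact ⟨⟨fun t i => Γ i t, continuous_pi fun i => (Γ i).continuous⟩, fun t i => hΓ i t⟩

theorem growsExp_of_grows {X : Type*} [TopologicalSpace X] [CompactSpace X] {f : X → X}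
    (hf : Continuous f) {k : ℕ} {φ : X → Fin k → AddCircle (1 : ℝ)} (hφ : Continuous φ)
    {u : X → AddCircle (1 : ℝ)} (c : Fin k → ℤ) {e : X → ℝ} (he : Continuous e)
    (hu : ∀ x, u x = ∑ i, c i • φ x i + ((e x : ℝ) : AddCircle (1 : ℝ))) {γ : C(I, X)}
    (h : Grows f u γ) : GrowsExp f φ γ := by
  obtain ⟨l, hl, hfr⟩ := h
  obtain ⟨K, hK⟩ : ∃ K, ∀ x, |e x| ≤ K := by
    obtain ⟨z, hz⟩ := he.abs.exists_forall_ge' (x₀ := γ 0) (by
      rw [Filter.cocompact_eq_bot]; exact Filter.eventually_bot)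
    exact ⟨_, hz⟩
  set s : ℝ := ∑ i, |(c i : ℝ)| with hs
  have hs0 : 0 ≤ s := Finset.sum_nonneg fun i _ => abs_nonneg _
  have hK0 : 0 ≤ K := (abs_nonneg _).trans (hK (γ 0))
  set r := Real.sqrt l with hr
  have hr1 : 1 < r := by
    rw [hr, Real.lt_sqrt (by norm_num)]
    simpa using hl
  have hrl : r * r = l := Real.mul_self_sqrt (by linarith)
  refine ⟨r, hr1, ?_⟩
  have hlim : Tendsto (fun n : ℕ => r ^ n) atTop atTop := tendsto_pow_atTop_atTop_of_one_lt hr1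
  refine (hfr.and_eventually (hlim.eventually_ge_atTop (s + 2 * K + 1))).mono ?_
  rintro n ⟨⟨θu, h1, h2⟩, h3⟩
  obtain ⟨θ, hθ⟩ := exists_lift_path (k := k) ⟨fun t => φ (f^[n] (γ t)),
    hφ.comp ((hf.iterate n).comp γ.continuous)⟩
  refine ⟨θ, hθ, ?_⟩
  have hcont : Continuous (fun t : I => θu t - (∑ i, (c i : ℝ) * θ t i + e (f^[n] (γ t)))) := by
    refine θu.continuous.sub ((continuous_finsetSum _ fun i _ => ?_).add
      (he.comp ((hf.iterate n).comp γ.continuous)))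
    exact continuous_const.mul ((continuous_apply i).comp θ.continuous)
  have h4 := const_of_coe (Y := I) isPreconnected_univ
    (fun t : I => θu t - (∑ i, (c i : ℝ) * θ t i + e (f^[n] (γ t)))) hcont.continuousOn 0
    (fun t _ => by
      rw [AddCircle.coe_sub, AddCircle.coe_add, h1, hu]
      have h5 : ((∑ i, (c i : ℝ) * θ t i : ℝ) : AddCircle (1 : ℝ)) =
          ∑ i, (((c i : ℝ) * θ t i : ℝ) : AddCircle (1 : ℝ)) :=
        map_sum (QuotientAddGroup.mk' (AddSubgroup.zmultiples (1 : ℝ))) _ _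
      rw [h5, sub_eq_zero]
      congr 1
      refine Finset.sum_congr rfl fun i _ => ?_
      rw [← zsmul_eq_mul, AddCircle.coe_zsmul, hθ]
      rfl) (mem_univ 1) (mem_univ 0)
  have h5 : θu 1 - θu 0 = ∑ i, (c i : ℝ) * (θ 1 i - θ 0 i) +
      (e (f^[n] (γ 1)) - e (f^[n] (γ 0))) := by
    have h6 : θu 1 - (∑ i, (c i : ℝ) * θ 1 i + e (f^[n] (γ 1))) =
      θu 0 - (∑ i, (c i : ℝ) * θ 0 i + e (f^[n] (γ 0))) := h4
    simp_rw [mul_sub]
    rw [Finset.sum_sub_distrib]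
    linarith
  set d := ‖θ 1 - θ 0‖ with hd
  have h6 : |∑ i, (c i : ℝ) * (θ 1 i - θ 0 i)| ≤ s * d := by
    refine (Finset.abs_sum_le_sum_abs _ _).trans ?_
    rw [hs, Finset.sum_mul]
    refine Finset.sum_le_sum fun i _ => ?_
    rw [abs_mul]
    refine mul_le_mul_of_nonneg_left ?_ (abs_nonneg _)
    have := norm_le_pi_norm (θ 1 - θ 0) i
    rwa [Pi.sub_apply, Real.norm_eq_abs] at this
  have h7 : l ^ n ≤ s * d + 2 * K := by
    refine h2.trans ?_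
    rw [h5]
    have a1 := abs_add_le (∑ i, (c i : ℝ) * (θ 1 i - θ 0 i)) (e (f^[n] (γ 1)) - e (f^[n] (γ 0)))
    have a2 := abs_sub (e (f^[n] (γ 1))) (e (f^[n] (γ 0)))
    have a3 := hK (f^[n] (γ 1))
    have a4 := hK (f^[n] (γ 0))
    linarith
  have h8 : l ^ n = r ^ n * r ^ n := by rw [← mul_pow, hrl]
  rw [h8] at h7
  by_contra hcon
  push Not at hcon
  have h9 : s * d ≤ s * r ^ n := mul_le_mul_of_nonneg_left hcon.le hs0
  nlinarith

theorem grows_coord {M : Type*} [TopologicalSpace M] {f : M → M} {k : ℕ}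
    {φ : M → Fin k → AddCircle (1 : ℝ)} {γ : C(I, M)} (h : GrowsExp f φ γ) :
    ∃ i, Grows f (fun x => φ x i) γ := by
  obtain ⟨l, hl, hfr⟩ := h
  by_contra hcon
  push Not at hcon
  have h1 : ∀ i, ∀ᶠ n : ℕ in atTop, ¬ ∃ θ : C(I, ℝ),
      (∀ t, ((θ t : ℝ) : AddCircle (1 : ℝ)) = φ (f^[n] (γ t)) i) ∧ l ^ n ≤ |θ 1 - θ 0| := by
    intro i
    by_contra h2
    exact hcon i ⟨l, hl, h2⟩
  obtain ⟨n, ⟨θ, h2, h3⟩, h4⟩ := (hfr.and_eventually (eventually_all.mpr h1)).exists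
  have hp : 0 < l ^ n := pow_pos (by linarith) n
  obtain ⟨i, hi⟩ : ∃ i, l ^ n ≤ ‖(θ 1 - θ 0) i‖ := by
    by_contra h5
    push Not at h5
    exact absurd h3 (not_le.mpr ((pi_norm_lt_iff hp).mpr h5))
  exact h4 i ⟨⟨fun t => θ t i, (continuous_apply i).comp θ.continuous⟩, fun t => h2 t i, hi⟩

end Pool.Agent.Q227.AG
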