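import Pool.Agent.W740.TC.Main

set_option autoImplicit false
set_option linter.unusedSectionVars false

open Filter Topology Set Metric unitInterval

namespace Pool.Agent.Q227.AG

open Pool.Agent.H789R2.AN Pool.Agent.H789R2.GP Pool.Agent.W740.TC

/-- For the path `γ` in `M` the displacements of the iterates `fⁿ ∘ γ`, measured in `ℝᵏ` through
`φ : M → ℝᵏ/ℤᵏ`, grow exponentially: for some `l > 1` there are arbitrarily large `n` such that a
lift `θ` to `ℝᵏ` of the path `φ ∘ fⁿ ∘ γ` satisfies `‖θ 1 - θ 0‖ ≥ lⁿ`. -/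
def GrowsExp {M : Type*} [TopologicalSpace M] {k : ℕ} (f : M → M)
    (φ : M → Fin k → AddCircle (1 : ℝ)) (γ : C(I, M)) : Prop :=
  ∃ l : ℝ, 1 < l ∧ ∃ᶠ n : ℕ in atTop, ∃ θ : C(I, Fin k → ℝ),
    (∀ t i, ((θ t i : ℝ) : AddCircle (1 : ℝ)) = φ (f^[n] (γ t)) i) ∧ l ^ n ≤ ‖θ 1 - θ 0‖

variable {X : Type*} [MetricSpace X] [CompactSpace X]
  {V : Type*} [NormedAddCommGroup V] [NormedSpace ℝ V] [FiniteDimensional ℝ V]
  {f : X ≃ₜ X} {k : ℕ} (D : TD f k V)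

theorem pc_bound {Vc : Type*} [NormedAddCommGroup Vc] [NormedSpace ℝ Vc]
    (Pc : (Fin k → ℝ) →L[ℝ] Vc) (Tc : Vc → Vc) (hPc : ∀ v, Pc (D.Am v) = Tc (Pc v))
    (hgr : ∀ δ : ℝ, 0 < δ → ∃ C : ℝ, 0 ≤ C ∧ ∀ (n : ℕ) (v : Vc), ‖Tc^[n] v‖ ≤ C * (1 + δ) ^ n * ‖v‖)
    {η : ℝ} (hη : D.Sc η) {δ : ℝ} (hδ : 0 < δ) : ∃ Q : ℝ, 0 ≤ Q ∧ ∀ (x y : X) (m : ℕ),
      dist (f.symm^[m] x) (f.symm^[m] y) < η →
      ‖Pc (D.Am^[m] (D.ψ (f.symm^[m] x) (f.symm^[m] y)) + tsm D x y m)‖ ≤ Q * (1 + δ) ^ m := by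
  obtain ⟨C, hC, hCb⟩ := hgr δ hδ
  -- bound for e
  obtain ⟨K, hK⟩ : ∃ K, ∀ x, ‖D.e x‖ ≤ K := by
    have hcb : Continuous (fun x => ‖D.e x‖) := D.ce.norm
    rcases isEmpty_or_nonempty X with hX | hX
    · exact ⟨0, fun x => (hX.false x).elim⟩
    · obtain ⟨z, hz⟩ := hcb.exists_forall_ge' (x₀ := Classical.arbitrary X) (by
        rw [Filter.cocompact_eq_bot]; exact Filter.eventually_bot)
      exact ⟨_, hz⟩
  set L := ‖Pc‖ with hL
  have hL0 : 0 ≤ L := norm_nonneg _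
  set Q : ℝ := C * L + C * L * (2 * |K|) / δ with hQ
  have hQ0 : 0 ≤ Q := by positivity
  have hiter : ∀ (n : ℕ) (v : Fin k → ℝ), Pc (D.Am^[n] v) = Tc^[n] (Pc v) := by
    intro n
    induction n with
    | zero => intro v; rfl
    | succ n ih => intro v; rw [Function.iterate_succ_apply, ih, hPc, ← Function.iterate_succ_apply]
  refine ⟨Q, hQ0, ?_⟩
  intro x y m hm
  rw [map_add]
  have h1 : ‖Pc (D.Am^[m] (D.ψ (f.symm^[m] x) (f.symm^[m] y)))‖ ≤ C * L * (1 + δ) ^ m := by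
    rw [hiter]
    refine (hCb m _).trans ?_
    have h2 : ‖Pc (D.ψ (f.symm^[m] x) (f.symm^[m] y))‖ ≤ L * 1 := by
      refine (Pc.le_opNorm _).trans (mul_le_mul_of_nonneg_left ?_ hL0)
      have := hη.2.1 _ _ hm
      linarith
    calc C * (1 + δ) ^ m * ‖Pc (D.ψ (f.symm^[m] x) (f.symm^[m] y))‖
        ≤ C * (1 + δ) ^ m * (L * 1) := mul_le_mul_of_nonneg_left h2 (by positivity)
      _ = C * L * (1 + δ) ^ m := by ring
  have h2 : ‖Pc (tsm D x y m)‖ ≤ C * L * (2 * |K|) / δ * (1 + δ) ^ m := by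
    unfold tsm
    rw [map_sum]
    have h3 : ∀ j ∈ Finset.range m, ‖Pc (D.Am^[j] (D.e (f.symm^[j + 1] y) -
        D.e (f.symm^[j + 1] x)))‖ ≤ C * L * (2 * |K|) * (1 + δ) ^ j := by
      intro j _
      rw [hiter]
      refine (hCb j _).trans ?_
      have h4 : ‖Pc (D.e (f.symm^[j + 1] y) - D.e (f.symm^[j + 1] x))‖ ≤ L * (2 * |K|) := by
        refine (Pc.le_opNorm _).trans (mul_le_mul_of_nonneg_left ?_ hL0)
        have a1 := norm_sub_le (D.e (f.symm^[j + 1] y)) (D.e (f.symm^[j + 1] x))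
        have a2 := hK (f.symm^[j + 1] y)
        have a3 := hK (f.symm^[j + 1] x)
        have a4 := le_abs_self K
        linarith
      calc C * (1 + δ) ^ j * ‖Pc (D.e (f.symm^[j + 1] y) - D.e (f.symm^[j + 1] x))‖
          ≤ C * (1 + δ) ^ j * (L * (2 * |K|)) := mul_le_mul_of_nonneg_left h4 (by positivity)
        _ = C * L * (2 * |K|) * (1 + δ) ^ j := by ring
    refine (norm_sum_le_of_le _ h3).trans ?_
    rw [← Finset.mul_sum, geom_sum_eq (by linarith : (1 + δ) ≠ 1), add_sub_cancel_left,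
      div_mul_eq_mul_div, mul_div_assoc]
    refine mul_le_mul_of_nonneg_left ?_ (by positivity)
    exact div_le_div_of_nonneg_right (by linarith) hδ.le
  refine (norm_add_le _ _).trans ((add_le_add h1 h2).trans (le_of_eq ?_))
  rw [hQ]; ring

theorem unst_fwd {γ : C(I, X)} (h : UnstablePath f.symm γ) (n : ℕ) :
    UnstablePath f.symm (⟨fun t => f^[n] (γ t), (f.continuous.iterate n).comp γ.continuous⟩ :
      C(I, X)) := by
  intro 𝒰 h𝒰
  obtain ⟨m₀, hm₀⟩ := eventually_atTop.mp (h 𝒰 h𝒰)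
  refine eventually_atTop.mpr ⟨m₀ + n, fun m hm t => ?_⟩
  have e1 : ∀ z : X, f.symm^[m] (f^[n] z) = f.symm^[m - n] z := fun z => by
    have : m = (m - n) + n := by omega
    conv_lhs => rw [this]
    rw [Function.iterate_add_apply, iterL]
  show (f.symm^[m] (f^[n] (γ 0)), f.symm^[m] (f^[n] (γ t))) ∈ 𝒰
  rw [e1, e1]
  exact hm₀ (m - n) (by omega) t

/-- if the cocycle vanishes, then the displacements do not grow exponentially -/
theorem not_grows {Vc : Type*} [NormedAddCommGroup Vc] [NormedSpace ℝ Vc]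
    (Pc : (Fin k → ℝ) →L[ℝ] Vc) (Tc : Vc → Vc) (hPc : ∀ v, Pc (D.Am v) = Tc (Pc v))
    (hgr : ∀ δ : ℝ, 0 < δ → ∃ C : ℝ, 0 ≤ C ∧ ∀ (n : ℕ) (v : Vc), ‖Tc^[n] v‖ ≤ C * (1 + δ) ^ n * ‖v‖)
    (hn : ∀ v, ‖v‖ ≤ ‖D.P v‖ + ‖Pc v‖) {η : ℝ} (hη : D.Sc η) (γ : C(I, X))
    (hγ : UnstablePath f.symm γ) (hsm : ∀ j, dist (f.symm^[j] (γ 0)) (f.symm^[j] (γ 1)) < η)
    (h0 : D.κ (γ 0) (γ 1) = 0) : ¬ GrowsExp f D.φ γ := by
  rintro ⟨l, hl, hfr⟩
  obtain ⟨R, hR⟩ : ∃ R, ∀ x, ‖D.b x‖ ≤ R := by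
    have hcb : Continuous (fun x => ‖D.b x‖) := (D.b_cont f.continuous).norm
    obtain ⟨z, hz⟩ := hcb.exists_forall_ge' (x₀ := γ 0) (by
      rw [Filter.cocompact_eq_bot]; exact Filter.eventually_bot)
    exact ⟨_, hz⟩
  set δ := (l - 1) / 2 with hδ
  have hδ0 : 0 < δ := by rw [hδ]; linarith
  obtain ⟨Q, hQ0, hQ⟩ := pc_bound D Pc Tc hPc hgr hη hδ0
  have hbd : ∀ (n : ℕ) (θ : C(I, Fin k → ℝ)),
      (∀ t i, ((θ t i : ℝ) : AddCircle (1 : ℝ)) = D.φ (f^[n] (γ t)) i) →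
      ‖θ 1 - θ 0‖ ≤ 2 * R + Q * (1 + δ) ^ n := by
    intro n θ hθ
    let γn : C(I, X) := ⟨fun t => f^[n] (γ t), (f.continuous.iterate n).comp γ.continuous⟩
    have hun := unst_fwd hγ n
    have hback : ∀ z : X, f.symm^[n] (f^[n] z) = z := fun z => iterL f n z
    have hcl : ∀ j ≥ n, dist (f.symm^[j] (γn 0)) (f.symm^[j] (γn 1)) < η := by
      intro j hj
      have e1 : ∀ z : X, f.symm^[j] (f^[n] z) = f.symm^[j - n] z := fun z => by
        have : j = (j - n) + n := by omega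
        conv_lhs => rw [this]
        rw [Function.iterate_add_apply, iterL]
      show dist (f.symm^[j] (f^[n] (γ 0))) (f.symm^[j] (f^[n] (γ 1))) < η
      rw [e1, e1]
      exact hsm _
    have hform := disp_formula D hη γn θ hun hθ hcl
    have h1 : ‖Pc (θ 1 - θ 0)‖ ≤ Q * (1 + δ) ^ n := by
      rw [hform]
      exact hQ _ _ _ (hcl n le_rfl)
    -- the expanding part
    obtain ⟨m₀, hm₀⟩ := eventually_atTop.mp ((uniform_path.mp hγ) η hη.1)
    let γs : C(I, X) := ⟨fun t => f.symm^[m₀] (γ t), (f.symm.continuous.iterate m₀).comp γ.continuous⟩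
    obtain ⟨θs, hθs1, hθs2⟩ := small_lift D hη γs (hm₀ m₀ le_rfl)
    have hκ : ∀ j, D.κ (f.symm^[j] (γ 0)) (f.symm^[j] (γ 1)) = 0 := by
      intro j
      induction j with
      | zero => exact h0
      | succ j ih =>
        have h2 := TD.κ_f hη (hsm (j + 1))
        have e1 : ∀ z : X, f (f.symm^[j + 1] z) = f.symm^[j] z := fun z => by
          rw [Function.iterate_succ_apply' f.symm, f.apply_symm_apply]
        rw [e1, e1, ih] at h2
        exact (D.B.map_eq_zero_iff.mp h2.symm)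
    have h0' : D.P (θs 1 - θs 0) + (D.b (γs 1) - D.b (γs 0)) = 0 := by
      rw [hθs2]
      exact hκ m₀
    obtain ⟨γ', θ', k1, k2, k3⟩ := iter_lift D γs θs hθs1 h0' (m₀ + n)
    have e2 : ∀ t, γ' t = γn t := by
      intro t
      rw [k1]
      show f^[m₀ + n] (f.symm^[m₀] (γ t)) = f^[n] (γ t)
      rw [Nat.add_comm m₀ n, Function.iterate_add_apply, iterR]
    have h3 : θ 1 - θ 0 = θ' 1 - θ' 0 := lift_unique (φ := D.φ) γn θ θ' hθ
      (fun t i => by rw [k2, e2])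
    have h4 : ‖D.P (θ 1 - θ 0)‖ ≤ 2 * R := by
      rw [h3]
      have e3 : D.P (θ' 1 - θ' 0) = D.b (γ' 0) - D.b (γ' 1) := by
        have := k3
        rw [add_eq_zero_iff_eq_neg] at this
        rw [this]; abel
      rw [e3]
      have := norm_sub_le (D.b (γ' 0)) (D.b (γ' 1))
      have := hR (γ' 0)
      have := hR (γ' 1)
      linarith
    have h5 := hn (θ 1 - θ 0)
    linarith
  -- contradiction
  have hR0 : 0 ≤ R := (norm_nonneg _).trans (hR (γ 0))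
  have hlim : Tendsto (fun n : ℕ => (l / (1 + δ)) ^ n) atTop atTop := by
    apply tendsto_pow_atTop_atTop_of_one_lt
    rw [one_lt_div (by linarith)]
    rw [hδ]; linarith
  have hev := hlim.eventually_gt_atTop (2 * R + Q)
  obtain ⟨n, ⟨θ, hθ, hle⟩, hgt⟩ := (hfr.and_eventually hev).exists
  have h1 := hbd n θ hθ
  have hp : (1 : ℝ) ≤ (1 + δ) ^ n := one_le_pow₀ (by linarith)
  have h2 : l ^ n = (l / (1 + δ)) ^ n * (1 + δ) ^ n := by
    rw [← mul_pow, div_mul_cancel₀ _ (by linarith : (1 + δ) ≠ 0)]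
  have h3 : (2 * R + Q) * (1 + δ) ^ n < l ^ n := by
    rw [h2]
    exact mul_lt_mul_of_pos_right hgt (by linarith)
  nlinarith

end Pool.Agent.Q227.AG
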