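import Pool.Agent.Q227.AG.Toral
import Pool.Agent.W740.TU.Sym
import Pool.Agent.Q227.AT.Conv

set_option autoImplicit false
set_option linter.unusedSectionVars false

open Filter Topology Set Metric
open scoped Manifold ContDiff

namespace Pool.Agent.Q227.AG

open Pool.Agent.H721R2 Pool.Agent.H789R2.AN Pool.Agent.W740.TC Pool.Agent.W740.TU
open Pool.Agent.H779R2.To (IsToral)

variable {E : Type*} [NormedAddCommGroup E] [NormedSpace ℝ E] [FiniteDimensional ℝ E]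
  {M : Type*} [TopologicalSpace M] [T2Space M] [CompactSpace M] [ConnectedSpace M]
  [ChartedSpace E M] [IsManifold 𝓘(ℝ, E) ∞ M]

/-- generators of the first cohomology with the matrix of `f` -/
theorem man_gen (f : Diffeomorph 𝓘(ℝ, E) 𝓘(ℝ, E) M M 1) :
    ∃ (k : ℕ) (φ : C(M, Fin k → AddCircle (1 : ℝ))) (A : Matrix (Fin k) (Fin k) ℤ)
      (e : M → Fin k → ℝ), Continuous e ∧
      (∀ x i, φ (f x) i = ∑ j, A i j • φ x j + ((e x i : ℝ) : AddCircle (1 : ℝ))) ∧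
      ∀ g : C(M, AddCircle (1 : ℝ)), ∃ (c : Fin k → ℤ) (e : M → ℝ), Continuous e ∧
        ∀ x, g x = ∑ i, c i • φ x i + ((e x : ℝ) : AddCircle (1 : ℝ)) := by
  obtain ⟨m, ee, hee, hemb, hinj⟩ := exists_embedding_euclidean_of_compact (I := 𝓘(ℝ, E)) (M := M)
  let _ : MetricSpace M := hemb.isEmbedding.comapMetricSpace ee
  exact exists_phi (X := M) (E := E) ⟨f, f.continuous⟩

theorem man_circ (f : Diffeomorph 𝓘(ℝ, E) 𝓘(ℝ, E) M M 1)
    (Es Eu : ∀ x : M, Submodule ℝ (TangentSpace 𝓘(ℝ, E) x)) (hA : IsAnosov f Es Eu)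
    (hU : ∃ 𝒰 ∈ 𝓝ˢ (diagonal M), ∀ γ : C(unitInterval, M), UnstablePath f.symm γ →
      (∀ n t, (f.symm^[n] (γ 0), f.symm^[n] (γ t)) ∈ 𝒰) → γ 0 ≠ γ 1 →
      ∃ u : C(M, AddCircle (1 : ℝ)), Superpoly f u γ) : TopTransitive f ∧ IsToral f ∧
      (∃ q : E → M, IsCoveringMap q ∧ Function.Surjective q) ∧ Dense (Function.periodicPts f) := by
  obtain ⟨k, φ, A, e, he, hφf, hgen⟩ := man_gen f
  obtain ⟨𝒰, h𝒰, h⟩ := hU
  refine man_exp f Es Eu hA φ φ.continuous A e he hφf ⟨𝒰, h𝒰, fun γ h1 h2 h3 => ?_⟩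
  obtain ⟨u, hu⟩ := h γ h1 h2 h3
  obtain ⟨c, e', he', hu'⟩ := hgen u
  exact superVec_of_superpoly f.continuous φ.continuous c he' hu' hu

theorem man_iff (f : Diffeomorph 𝓘(ℝ, E) 𝓘(ℝ, E) M M 1)
    (Es Eu : ∀ x : M, Submodule ℝ (TangentSpace 𝓘(ℝ, E) x)) (hA : IsAnosov f Es Eu) :
    List.TFAE [IsToral f,
      ∀ γ : C(unitInterval, M), UnstablePath f.symm γ → γ 0 ≠ γ 1 →
        ∃ u : C(M, AddCircle (1 : ℝ)), Grows f u γ,
      ∃ 𝒰 ∈ 𝓝ˢ (diagonal M), ∀ γ : C(unitInterval, M), UnstablePath f.symm γ →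
        (∀ n t, (f.symm^[n] (γ 0), f.symm^[n] (γ t)) ∈ 𝒰) → γ 0 ≠ γ 1 →
        ∃ u : C(M, AddCircle (1 : ℝ)), Superpoly f u γ,
      ∃ 𝒰 ∈ 𝓝ˢ (diagonal M), ∀ γ : C(unitInterval, M), UnstablePath f γ →
        (∀ n t, (f^[n] (γ 0), f^[n] (γ t)) ∈ 𝒰) → γ 0 ≠ γ 1 →
        ∃ u : C(M, AddCircle (1 : ℝ)), Superpoly f.symm u γ] := by
  have key : ∀ f : Diffeomorph 𝓘(ℝ, E) 𝓘(ℝ, E) M M 1, IsToral f →
      ∀ γ : C(unitInterval, M), UnstablePath f.symm γ → γ 0 ≠ γ 1 →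
        ∃ u : C(M, AddCircle (1 : ℝ)), Grows f u γ := by
    rintro f ⟨m, A, h, h1, h2, h3⟩ γ hγ hne
    have h4 := poly_of_toral f.toHomeomorph A h h1 h2 h3
    obtain ⟨i, hi⟩ := grows_coord (exp_of_poly f.toHomeomorph ⟨h, h.continuous⟩ h4 γ hγ hne)
    exact ⟨⟨fun x => h x i, (continuous_apply i).comp h.continuous⟩, hi⟩
  tfae_have 1 → 2 := key f
  tfae_have 2 → 3 := fun h => ⟨univ, univ_mem, fun γ hγ _ hne => by
    obtain ⟨u, hu⟩ := h γ hγ hne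
    exact ⟨u, hu.superpoly⟩⟩
  tfae_have 3 → 1 := fun h => (man_circ f Es Eu hA h).2.1
  tfae_have 1 → 4 := by
    intro h
    have h1 : IsToral f.symm := by
      have h2 : IsToral (f.toHomeomorph.symm.symm : M → M) := h
      exact IsToral.inv f.toHomeomorph.symm h2
    refine ⟨univ, univ_mem, fun γ hγ _ hne => ?_⟩
    obtain ⟨u, hu⟩ := key f.symm h1 γ hγ hne
    exact ⟨u, hu.superpoly⟩
  tfae_have 4 → 1 := by
    intro h
    have h3 := (man_circ f.symm Eu Es (anosov_symm f Es Eu hA) h).2.1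
    exact IsToral.inv f.toHomeomorph h3
  tfae_finish

end Pool.Agent.Q227.AG
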