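import Pool.Agent.Q227.AL.Man
import Pool.Agent.Q227.AG.Iff

set_option autoImplicit false
set_option linter.unusedSectionVars false

open Filter Topology Set Metric
open scoped Manifold ContDiff

namespace Pool.Agent.Q227.AG

open Pool.Agent.H721R2 Pool.Agent.H789R2.AN Pool.Agent.H789R2.GP Pool.Agent.W740.TC
open Pool.Agent.TH289.K Pool.Agent.TH289.L Pool.Agent.Q227.AL
open Pool.Agent.TH761.L289 (ULim isClosed_ULim mem_ULim exists_lim isPreconnected_ULim closed_rel)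
open Pool.Agent.Q227.AT (back_small)

section abs

open unitInterval

variable {X : Type*} [MetricSpace X] [CompactSpace X] {g : X ≃ₜ X} {c : ℝ}
  {V : Type*} [NormedAddCommGroup V] [NormedSpace ℝ V] (C : CL g V)

theorem light_unif_kappa (hg : LP g c) {ε₀ : ℝ} (hε₀ : 0 < ε₀)
    (hL : ∀ S : Set X, IsCompact S → IsPreconnected S → (∀ x ∈ S, ∀ y ∈ S, SR g.symm ε₀ x y) →
      (∀ x ∈ S, ∀ y ∈ S, C.κ x y = 0) → S.Subsingleton) {ε : ℝ}
    (hε : 0 < ε) : ∃ ρ > 0, ∀ β : C(I, SM g.symm),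
      (∀ t, ‖C.cu (β 0).val (β t).val‖ ≤ ρ) → ∀ t, SR g.symm ε (β 0).val (β t).val := by
  by_contra hcon
  push Not at hcon
  have hc := hg.c_pos
  have hη := C.η_pos
  set ε' := min (min ε (ε₀ / 2)) (C.η / 4) with hε'
  have hε'0 : 0 < ε' := by positivity
  have l1 : ε' ≤ ε := (min_le_left _ _).trans (min_le_left _ _)
  have l2 : ε' ≤ ε₀ / 2 := (min_le_left _ _).trans (min_le_right _ _)
  have l4 : ε' ≤ C.η / 4 := min_le_right _ _
  have l5 : ε' < C.η := by linarith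
  have hseq : ∀ n : ℕ, ∃ (S : Set X) (x q : X), IsPreconnected S ∧ x ∈ S ∧ q ∈ S ∧
      (∀ z ∈ S, SR g.symm ε' x z) ∧ ε' ≤ dist (g x) (g q) ∧
      ∀ z ∈ S, ‖C.κ x z‖ ≤ 1 / ((n : ℝ) + 1) := by
    intro n
    obtain ⟨β, h1, t, h2⟩ := hcon (1 / ((n : ℝ) + 1)) (by positivity)
    exact C.one_path hg hε'0 l5 β h1 ⟨t, fun h3 => h2 (h3.mono l1)⟩
  choose S x q hCc hx hq hSR hgq hhz using hseq
  let 𝒰 : Ultrafilter ℕ := Filter.hyperfilter ℕ
  have h𝒰 : (𝒰 : Filter ℕ) ≤ atTop := Nat.hyperfilter_le_atTop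
  obtain ⟨x₀, hx₀⟩ := exists_lim 𝒰 x
  obtain ⟨q₀, hq₀⟩ := exists_lim 𝒰 q
  have hxL : x₀ ∈ ULim 𝒰 S := mem_ULim 𝒰 S x (Eventually.of_forall hx) x₀ hx₀
  have hqL : q₀ ∈ ULim 𝒰 S := mem_ULim 𝒰 S q (Eventually.of_forall hq) q₀ hq₀
  have hclSR := Pool.Agent.W740.TC.Coc.isClosed_SR g.symm ε'
  have hSR₀ : ∀ z ∈ ULim 𝒰 S, SR g.symm ε' x₀ z := fun z hz =>
    closed_rel 𝒰 S {p | SR g.symm ε' p.1 p.2} hclSR x x₀ hx₀
      (Eventually.of_forall hSR) z hz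
  have hh₀ : ∀ z ∈ ULim 𝒰 S, C.κ x₀ z = 0 := by
    intro z hz
    rw [← norm_le_zero_iff]
    refine le_of_forall_pos_le_add fun η' hη' => ?_
    rw [zero_add]
    have hcont : ContinuousOn (fun p : X × X => ‖C.κ p.1 p.2‖) {p | SR g.symm ε' p.1 p.2} := by
      refine (C.contOn.norm).mono fun p hp => ?_
      exact (hp 0).trans_lt l5
    have hcl : IsClosed ({p : X × X | SR g.symm ε' p.1 p.2} ∩
        (fun p : X × X => ‖C.κ p.1 p.2‖) ⁻¹' (Iic η')) :=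
      hcont.preimage_isClosed_of_isClosed hclSR isClosed_Iic
    have h1 : ∀ᶠ n : ℕ in atTop, 1 / ((n : ℝ) + 1) < η' :=
      (tendsto_order.1 tendsto_one_div_add_atTop_nhds_zero_nat).2 η' hη'
    have h2 := closed_rel 𝒰 S _ hcl x x₀ hx₀ (h𝒰 (h1.mono fun n hn z hz =>
      ⟨hSR n z hz, (hhz n z hz).trans hn.le⟩)) z hz
    exact h2.2
  have hge : ε' ≤ dist (g x₀) (g q₀) := by
    have h1 : Tendsto (fun n => dist (g (x n)) (g (q n))) 𝒰 (𝓝 (dist (g x₀) (g q₀))) :=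
      ((g.continuous.tendsto x₀).comp hx₀).dist ((g.continuous.tendsto q₀).comp hq₀)
    exact ge_of_tendsto h1 (Eventually.of_forall hgq)
  have hsub : (ULim 𝒰 S).Subsingleton := by
    refine hL _ (isClosed_ULim 𝒰 S).isCompact (isPreconnected_ULim 𝒰 S hCc) ?_ ?_
    · intro a ha b hb n
      have h3 := hSR₀ a ha n
      have h4 := hSR₀ b hb n
      have h5 := dist_triangle_left (g.symm^[n] a) (g.symm^[n] b) (g.symm^[n] x₀)
      linarith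
    · intro a ha b hb
      have h3 : dist x₀ a ≤ ε' := hSR₀ a ha 0
      have h4 : dist x₀ b ≤ ε' := hSR₀ b hb 0
      have h5 := dist_triangle_left a b x₀
      have h6 := C.add x₀ a b (by linarith) (by linarith) (by linarith)
      rw [hh₀ a ha, hh₀ b hb, zero_add] at h6
      exact h6.symm
  have h1 : x₀ = q₀ := hsub hxL hqL
  rw [h1, dist_self] at hge
  linarith

end abs

section manifold

variable {E : Type*} [NormedAddCommGroup E] [NormedSpace ℝ E] [FiniteDimensional ℝ E]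
  {M : Type*} [TopologicalSpace M] [T2Space M] [CompactSpace M] [ConnectedSpace M]
  [ChartedSpace E M] [IsManifold 𝓘(ℝ, E) ∞ M]

theorem man_cont_exp (f : Diffeomorph 𝓘(ℝ, E) 𝓘(ℝ, E) M M 1)
    (Es Eu : ∀ x : M, Submodule ℝ (TangentSpace 𝓘(ℝ, E) x)) (hA : IsAnosov f Es Eu)
    {k : ℕ} (φ : M → Fin k → AddCircle (1 : ℝ)) (hφ : Continuous φ)
    (A : Matrix (Fin k) (Fin k) ℤ) (e : M → Fin k → ℝ) (hec : Continuous e)
    (hφe : ∀ x i, φ (f x) i = ∑ j, A i j • φ x j + ((e x i : ℝ) : AddCircle (1 : ℝ)))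
    (hL : ∃ 𝒲 ∈ 𝓝ˢ (diagonal M), ∀ C : Set M, IsCompact C → IsPreconnected C → C.Nontrivial →
      (∀ n : ℕ, ∀ x ∈ C, ∀ y ∈ C, (f.symm^[n] x, f.symm^[n] y) ∈ 𝒲) →
      ∃ γ : C(unitInterval, M), UnstablePath f.symm γ ∧ γ 0 ∈ C ∧ γ 1 ∈ C ∧ SuperVec f φ γ) :
    GPS f.toHomeomorph := by
  obtain ⟨𝒰, h𝒰, hLL⟩ := hL
  set T := cx A with hT
  have hc := W_compl T
  let Pu : (Fin k → ℝ) →ₗ[ℝ] Wu T :=
    (((Wu T).projectionOnto (Wc T) hc).restrictScalars ℝ) ∘ₗ inc k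
  let Pc : (Fin k → ℝ) →ₗ[ℝ] Wc T :=
    (((Wc T).projectionOnto (Wu T) hc.symm).restrictScalars ℝ) ∘ₗ inc k
  have hsum : ∀ v, inc k v = (Pu v : Fin k → ℂ) + (Pc v : Fin k → ℂ) := fun v =>
    (Submodule.projection_add_projection_eq_self hc (inc k v)).symm
  have huniq : ∀ (a a' : Wu T) (b b' : Wc T),
      (a : Fin k → ℂ) + (b : Fin k → ℂ) = (a' : Fin k → ℂ) + (b' : Fin k → ℂ) →
      a = a' ∧ b = b' := by
    intro a a' b b' h
    have h1 : (a : Fin k → ℂ) - a' = b' - b := by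
      rw [sub_eq_sub_iff_add_eq_add, h, add_comm]
    have h2 : (a : Fin k → ℂ) - a' ∈ Wu T := (Wu T).sub_mem a.2 a'.2
    have h3 : (a : Fin k → ℂ) - a' ∈ Wc T := by rw [h1]; exact (Wc T).sub_mem b'.2 b.2
    have h4 := hc.disjoint.le_bot ⟨h2, h3⟩
    rw [Submodule.mem_bot] at h4
    refine ⟨Subtype.ext (sub_eq_zero.mp h4), Subtype.ext ?_⟩
    rw [h4] at h1
    exact (sub_eq_zero.mp h1.symm).symm
  have hcomm : ∀ v : Fin k → ℝ, Pu (fun i => ∑ j, (A i j : ℝ) * v j) = Tu T (Pu v) ∧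
      Pc (fun i => ∑ j, (A i j : ℝ) * v j) = Tc T (Pc v) := by
    intro v
    apply huniq
    rw [← hsum, ← cx_inc, Tu_coe, Tc_coe, ← map_add, ← hsum]
  have hpowu : ∀ (n : ℕ) (v : Wu T), (Tu T)^[n] v = ((Tu T) ^ n) v := fun n v => by
    rw [Module.End.pow_apply]
  have hpowc : ∀ (n : ℕ) (v : Wc T), (Tc T)^[n] v = ((Tc T) ^ n) v := fun n v => by
    rw [Module.End.pow_apply]
  have hBexp : Expanding ((Tu T).restrictScalars ℝ : Wu T →ₗ[ℝ] Wu T) := by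
    obtain ⟨C, l, h0, h1, h2⟩ := Tu_exp T
    refine ⟨C, l, h0, h1, fun n v => ?_⟩
    have h3 : ((Tu T).restrictScalars ℝ : Wu T →ₗ[ℝ] Wu T)^[n] v = ((Tu T) ^ n) v := by
      rw [← hpowu]
      rfl
    rw [h3]
    exact h2 n v
  obtain ⟨m, ee, hee, hemb, hinj⟩ := exists_embedding_euclidean_of_compact (I := 𝓘(ℝ, E)) (M := M)
  let _ : MetricSpace M := hemb.isEmbedding.comapMetricSpace ee
  have hiso : ∀ x y : M, dist x y = ‖ee x - ee y‖ := fun x y => dist_eq_norm (ee x) (ee y)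
  have he1 : ContMDiff 𝓘(ℝ, E) (𝓡 m) 1 ee := hee.of_le (by simp)
  obtain ⟨D, hD1, hDA, hD2, N₀, hN₀⟩ := exists_TD f.toHomeomorph φ hφ A e hec hφe
    ((Tu T).restrictScalars ℝ : Wu T →ₗ[ℝ] Wu T) hBexp Pu (fun v => (hcomm v).1)
  obtain ⟨n, S, hn, hg, hSe, hVs, hVu⟩ := exists_sys_ge hiso he1 hinj f Es Eu hA (max N₀ 1)
  have hn1 : 1 ≤ n := (le_max_right _ _).trans hn
  have hgi : ∀ x, S.g x = (f.toHomeomorph)^[n] x := fun x => by
    rw [hg]; rfl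
  obtain ⟨c', h⟩ := exists_LP S
  have : ProperSpace E := FiniteDimensional.proper_real E
  have hX : ULC M := ulc_of_charted (X := M) (E := E)
  obtain ⟨C, hC⟩ := exists_CL D hgi (hN₀ n ((le_max_left _ _).trans hn))
  obtain ⟨η₀, hη₀⟩ := D.exists_sc
  rw [nhdsSet_diagonal_eq_uniformity] at h𝒰
  obtain ⟨ρ, hρ, hρ'⟩ := Metric.mem_uniformity_dist.mp h𝒰
  obtain ⟨ε₀, hε₀, hε₀'⟩ := back_small hn1 hgi (lt_min hρ hη₀.1)
  have hL' : ∀ S' : Set M, IsCompact S' → IsPreconnected S' →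
      (∀ x ∈ S', ∀ y ∈ S', SR S.g.symm ε₀ x y) →
      (∀ x ∈ S', ∀ y ∈ S', C.κ x y = 0) → S'.Subsingleton := by
    intro S' k1 k2 k3 k4
    by_contra hns
    rw [not_subsingleton_iff] at hns
    obtain ⟨γ, g1, g2, g3, g4⟩ := hLL S' k1 k2 hns
      (fun n x hx y hy => hρ' ((hε₀' x y (k3 x hx y hy) n).trans_le (min_le_left _ _)))
    refine not_super D (LinearMap.toContinuousLinearMap Pc) (Tc T) (fun v => ?_) ?_
      (fun v => ?_) hη₀ γ g1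
      (fun j => (hε₀' _ _ (k3 _ g2 _ g3) j).trans_le (min_le_right _ _)) ?_ ?_
    · have h2 : D.Am v = fun i => ∑ j, (A i j : ℝ) * v j := by
        unfold TD.Am
        rw [hDA]
      rw [h2]
      exact (hcomm v).2
    · obtain ⟨d, C, hC, h2⟩ := Tc_poly T
      exact ⟨d, C, hC, fun n v => by rw [hpowc]; exact h2 n v⟩
    · have h2 : ‖v‖ = ‖(Pu v : Fin k → ℂ) + (Pc v : Fin k → ℂ)‖ := by
        rw [← hsum, inc_norm]
      rw [h2, hD2]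
      exact norm_add_le _ _
    · have h5 := k4 _ g2 _ g3
      rwa [hC] at h5
    · rw [hD1]
      exact g4
  have hlf := C.lf hX h (fun ε hε => light_unif_kappa C h hε₀ hL' hε)
  obtain ⟨c₁, hc₁, ⟨T₁⟩⟩ := exists_IQS h hX hlf
  exact gps_of_iqs hn1 hg h hc₁ T₁

theorem man_cont_circ (f : Diffeomorph 𝓘(ℝ, E) 𝓘(ℝ, E) M M 1)
    (Es Eu : ∀ x : M, Submodule ℝ (TangentSpace 𝓘(ℝ, E) x)) (hA : IsAnosov f Es Eu)
    (hL : ∃ 𝒲 ∈ 𝓝ˢ (diagonal M), ∀ C : Set M, IsCompact C → IsPreconnected C → C.Nontrivial →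
      (∀ n : ℕ, ∀ x ∈ C, ∀ y ∈ C, (f.symm^[n] x, f.symm^[n] y) ∈ 𝒲) →
      ∃ (u : C(M, AddCircle (1 : ℝ))) (γ : C(unitInterval, M)), UnstablePath f.symm γ ∧
        γ 0 ∈ C ∧ γ 1 ∈ C ∧ Superpoly f u γ) :
    GPS f.toHomeomorph := by
  obtain ⟨k, φ, A, e, he, hφf, hgen⟩ := man_gen f
  obtain ⟨𝒰, h𝒰, h⟩ := hL
  refine man_cont_exp f Es Eu hA φ φ.continuous A e he hφf
    ⟨𝒰, h𝒰, fun C h1 h2 h3 h4 => ?_⟩
  obtain ⟨u, γ, g1, g2, g3, g4⟩ := h C h1 h2 h3 h4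
  obtain ⟨c, e', he', hu'⟩ := hgen u
  exact ⟨γ, g1, g2, g3, superVec_of_superpoly f.continuous φ.continuous c he' hu' g4⟩

end manifold

end Pool.Agent.Q227.AG
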