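import Pool.Agent.W740.TC.Lin

set_option autoImplicit false

open Filter Topology Set Module

namespace Pool.Agent.Q227.AG

open Pool.Agent.W740.TC

variable {W : Type*} [NormedAddCommGroup W] [NormedSpace ℂ W]

/-- polynomial growth on generalized eigenspaces of eigenvalues of modulus at most one -/
theorem poly_gen (T : End ℂ W) {μ : ℂ} (hμ : ‖μ‖ ≤ 1) (j : ℕ) :
    ∀ v : W, ((T - algebraMap ℂ (End ℂ W) μ) ^ j) v = 0 →
      ∃ C : ℝ, 0 ≤ C ∧ ∀ n : ℕ, ‖(T ^ n) v‖ ≤ C * ((n : ℝ) + 1) ^ j := by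
  induction j with
  | zero =>
    intro v hv
    rw [pow_zero] at hv
    have hv0 : v = 0 := hv
    refine ⟨0, le_rfl, fun n => ?_⟩
    rw [hv0, map_zero, norm_zero]
    simp
  | succ j ih =>
    intro v hv
    set w := (T - algebraMap ℂ (End ℂ W) μ) v with hw
    have hw0 : ((T - algebraMap ℂ (End ℂ W) μ) ^ j) w = 0 := by
      rw [hw, ← hv, pow_succ]
      rfl
    obtain ⟨C, hC, h⟩ := ih w hw0
    have hTv : T v = w + μ • v := by
      rw [hw, LinearMap.sub_apply, Module.algebraMap_end_apply]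
      abel
    have key : ∀ n : ℕ, ‖(T ^ n) v‖ ≤ ‖v‖ + n * (C * ((n : ℝ) + 1) ^ j) := by
      intro n
      induction n with
      | zero => simp
      | succ n ihn =>
        have e1 : (T ^ (n + 1)) v = (T ^ n) w + μ • (T ^ n) v := by
          rw [pow_succ]
          show (T ^ n) (T v) = _
          rw [hTv, map_add, map_smul]
        have e2 : ‖μ • (T ^ n) v‖ ≤ ‖(T ^ n) v‖ := by
          rw [norm_smul]
          have := norm_nonneg ((T ^ n) v)
          nlinarith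
        have e3 := h n
        have e4 : ((n : ℝ) + 1) ^ j ≤ (((n + 1 : ℕ) : ℝ) + 1) ^ j := by
          apply pow_le_pow_left₀ (by positivity)
          push_cast
          linarith
        have e5 : (n : ℝ) * (C * ((n : ℝ) + 1) ^ j) + C * ((n : ℝ) + 1) ^ j =
            ((n + 1 : ℕ) : ℝ) * (C * ((n : ℝ) + 1) ^ j) := by push_cast; ring
        have e6 : ((n + 1 : ℕ) : ℝ) * (C * ((n : ℝ) + 1) ^ j) ≤
            ((n + 1 : ℕ) : ℝ) * (C * (((n + 1 : ℕ) : ℝ) + 1) ^ j) :=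
          mul_le_mul_of_nonneg_left (mul_le_mul_of_nonneg_left e4 hC) (by positivity)
        rw [e1]
        have e7 := norm_add_le ((T ^ n) w) (μ • (T ^ n) v)
        linarith
    refine ⟨‖v‖ + C, by positivity, fun n => (key n).trans ?_⟩
    have h1 : (1 : ℝ) ≤ ((n : ℝ) + 1) ^ (j + 1) := one_le_pow₀ (by
      have : (0 : ℝ) ≤ n := by positivity
      linarith)
    have h2 : (n : ℝ) * (C * ((n : ℝ) + 1) ^ j) ≤ C * ((n : ℝ) + 1) ^ (j + 1) := by
      rw [pow_succ]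
      have h3 : 0 ≤ C * ((n : ℝ) + 1) ^ j := by positivity
      nlinarith
    have h4 : ‖v‖ ≤ ‖v‖ * ((n : ℝ) + 1) ^ (j + 1) := le_mul_of_one_le_right (norm_nonneg _) h1
    rw [add_mul]
    linarith

/-- the vectors of polynomial growth -/
def PG (T : End ℂ W) (d : ℕ) : Submodule ℂ W where
  carrier := {v | ∃ C : ℝ, 0 ≤ C ∧ ∀ n : ℕ, ‖(T ^ n) v‖ ≤ C * ((n : ℝ) + 1) ^ d}
  zero_mem' := ⟨0, le_rfl, fun n => by rw [map_zero, norm_zero]; simp⟩
  add_mem' := by
    rintro a b ⟨C, hC, h⟩ ⟨C', hC', h'⟩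
    refine ⟨C + C', by positivity, fun n => ?_⟩
    rw [map_add, add_mul]
    exact (norm_add_le _ _).trans (add_le_add (h n) (h' n))
  smul_mem' := by
    rintro c a ⟨C, hC, h⟩
    refine ⟨‖c‖ * C, by positivity, fun n => ?_⟩
    rw [map_smul, norm_smul, mul_assoc]
    exact mul_le_mul_of_nonneg_left (h n) (norm_nonneg _)

variable [FiniteDimensional ℂ W]

theorem Wc_le (T : End ℂ W) : Wc T ≤ PG T (finrank ℂ W) := by
  refine iSup₂_le fun μ hμ v hv => ?_
  have hv' : v ∈ T.genEigenspace μ (finrank ℂ W) := by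
    rw [← Module.End.maxGenEigenspace_eq_genEigenspace_finrank]
    exact hv
  rw [Module.End.mem_genEigenspace_nat] at hv'
  exact poly_gen T hμ _ v hv'

theorem Tc_poly (T : End ℂ W) : ∃ (d : ℕ) (C : ℝ), 0 ≤ C ∧
    ∀ (n : ℕ) (v : Wc T), ‖((Tc T) ^ n) v‖ ≤ C * ((n : ℝ) + 1) ^ d * ‖v‖ := by
  have hTc : ∀ (n : ℕ) (v : Wc T), (((Tc T) ^ n) v : W) = (T ^ n) v := by
    intro n
    induction n with
    | zero => intro v; rfl
    | succ n ih =>
      intro v
      rw [pow_succ', pow_succ' T]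
      show T (((Tc T) ^ n) v : W) = T ((T ^ n) v)
      rw [ih]
  let b := Module.finBasis ℂ (Wc T)
  have h1 : ∀ i, ∃ C : ℝ, 0 ≤ C ∧ ∀ n : ℕ, ‖((Tc T) ^ n) (b i)‖ ≤
      C * ((n : ℝ) + 1) ^ (finrank ℂ W) := by
    intro i
    obtain ⟨C, hC, h⟩ := Wc_le T (b i).2
    refine ⟨C, hC, fun n => ?_⟩
    show ‖(((Tc T) ^ n) (b i) : W)‖ ≤ _
    rw [hTc]
    exact h n
  choose C hC h using h1
  let K : Fin (finrank ℂ (Wc T)) → ℝ := fun i => ‖LinearMap.toContinuousLinearMap (b.coord i)‖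
  have hK : ∀ i v, ‖b.repr v i‖ ≤ K i * ‖v‖ := fun i v =>
    (LinearMap.toContinuousLinearMap (b.coord i)).le_opNorm v
  have hK0 : ∀ i, 0 ≤ K i := fun i => norm_nonneg (LinearMap.toContinuousLinearMap (b.coord i))
  refine ⟨finrank ℂ W, ∑ i, K i * C i, Finset.sum_nonneg fun i _ => mul_nonneg (hK0 i) (hC i),
    fun n v => ?_⟩
  have e1 : ((Tc T) ^ n) v = ∑ i, b.repr v i • ((Tc T) ^ n) (b i) := by
    conv_lhs => rw [← b.sum_repr v]
    rw [map_sum]
    simp_rw [map_smul]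
  rw [e1]
  refine (norm_sum_le _ _).trans ?_
  rw [Finset.sum_mul, Finset.sum_mul]
  refine Finset.sum_le_sum fun i _ => ?_
  rw [norm_smul]
  calc ‖b.repr v i‖ * ‖((Tc T) ^ n) (b i)‖ ≤ (K i * ‖v‖) * (C i * ((n : ℝ) + 1) ^ (finrank ℂ W)) :=
        mul_le_mul (hK i v) (h i n) (norm_nonneg _) (mul_nonneg (hK0 i) (norm_nonneg _))
    _ = K i * C i * ((n : ℝ) + 1) ^ (finrank ℂ W) * ‖v‖ := by ring

end Pool.Agent.Q227.AG
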