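import Pool.Agent.Q227.AG.Circle
import Pool.Agent.Q227.AG.PolyG

set_option autoImplicit false
set_option linter.unusedSectionVars false

open Filter Topology Set Metric unitInterval

namespace Pool.Agent.Q227.AG

open Pool.Agent.H789R2.AN Pool.Agent.H789R2.GP Pool.Agent.W740.TC Pool.Agent.W740.TU

/-- For the path `γ` in `M` the displacements of the iterates `fⁿ ∘ γ`, measured in `ℝᵏ` through
`φ : M → ℝᵏ/ℤᵏ`, grow faster than every polynomial. -/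
def SuperVec {M : Type*} [TopologicalSpace M] {k : ℕ} (f : M → M)
    (φ : M → Fin k → AddCircle (1 : ℝ)) (γ : C(I, M)) : Prop :=
  ∀ d : ℕ, ∃ᶠ n : ℕ in atTop, ∃ θ : C(I, Fin k → ℝ),
    (∀ t i, ((θ t i : ℝ) : AddCircle (1 : ℝ)) = φ (f^[n] (γ t)) i) ∧ (n : ℝ) ^ d ≤ ‖θ 1 - θ 0‖

/-- For the path `γ` in `M` the displacements of the iterates `fⁿ ∘ γ`, measured in `ℝ` through
`u : M → ℝ/ℤ`, are not bounded by a polynomial in `n`: for every `d` there are arbitrarily large `n`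
such that a lift `θ` to `ℝ` of the path `u ∘ fⁿ ∘ γ` satisfies `|θ 1 - θ 0| ≥ nᵈ`. -/
def Superpoly {M : Type*} [TopologicalSpace M] (f : M → M) (u : M → AddCircle (1 : ℝ))
    (γ : C(I, M)) : Prop :=
  ∀ d : ℕ, ∃ᶠ n : ℕ in atTop, ∃ θ : C(I, ℝ),
    (∀ t, ((θ t : ℝ) : AddCircle (1 : ℝ)) = u (f^[n] (γ t))) ∧ (n : ℝ) ^ d ≤ |θ 1 - θ 0|

/-- exponential growth is superpolynomial -/
theorem Grows.superpoly {M : Type*} [TopologicalSpace M] {f : M → M} {u : M → AddCircle (1 : ℝ)}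
    {γ : C(I, M)} (h : Grows f u γ) : Superpoly f u γ := by
  obtain ⟨l, hl, hfr⟩ := h
  intro d
  have h1 : Tendsto (fun n : ℕ => (n : ℝ) ^ d / l ^ n) atTop (𝓝 0) :=
    tendsto_pow_const_div_const_pow_of_one_lt d hl
  refine (hfr.and_eventually ((tendsto_order.mp h1).2 1 one_pos)).mono ?_
  rintro n ⟨⟨θ, h2, h3⟩, h4⟩
  refine ⟨θ, h2, le_trans ?_ h3⟩
  rw [div_lt_one (pow_pos (by linarith) n)] at h4
  exact h4.le

theorem superVec_of_superpoly {X : Type*} [TopologicalSpace X] [CompactSpace X] {f : X → X}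
    (hf : Continuous f) {k : ℕ} {φ : X → Fin k → AddCircle (1 : ℝ)} (hφ : Continuous φ)
    {u : X → AddCircle (1 : ℝ)} (c : Fin k → ℤ) {e : X → ℝ} (he : Continuous e)
    (hu : ∀ x, u x = ∑ i, c i • φ x i + ((e x : ℝ) : AddCircle (1 : ℝ))) {γ : C(I, X)}
    (h : Superpoly f u γ) : SuperVec f φ γ := by
  obtain ⟨K, hK⟩ : ∃ K, ∀ x, |e x| ≤ K := by
    obtain ⟨z, hz⟩ := he.abs.exists_forall_ge' (x₀ := γ 0) (by
      rw [Filter.cocompact_eq_bot]; exact Filter.eventually_bot)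
    exact ⟨_, hz⟩
  set s : ℝ := ∑ i, |(c i : ℝ)| with hs
  have hs0 : 0 ≤ s := Finset.sum_nonneg fun i _ => abs_nonneg _
  have hK0 : 0 ≤ K := (abs_nonneg _).trans (hK (γ 0))
  intro dd
  have hlim : Tendsto (fun n : ℕ => (n : ℝ)) atTop atTop := tendsto_natCast_atTop_atTop
  refine ((h (dd + 1)).and_eventually (hlim.eventually_ge_atTop (s + 2 * K + 1))).mono ?_
  rintro n ⟨⟨θu, h1, h2⟩, h3⟩
  obtain ⟨θ, hθ⟩ := exists_lift_path (k := k) ⟨fun t => φ (f^[n] (γ t)),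
    hφ.comp ((hf.iterate n).comp γ.continuous)⟩
  refine ⟨θ, hθ, ?_⟩
  have hcont : Continuous (fun t : I => θu t - (∑ i, (c i : ℝ) * θ t i + e (f^[n] (γ t)))) := by
    refine θu.continuous.sub ((continuous_finsetSum _ fun i _ => ?_).add
      (he.comp ((hf.iterate n).comp γ.continuous)))
    exact continuous_const.mul ((continuous_apply i).comp θ.continuous)
  have h4 := const_of_coe (Y := I) isPreconnected_univ
    (fun t : I => θu t - (∑ i, (c i : ℝ) * θ t i + e (f^[n] (γ t)))) hcont.continuousOn 0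
    (fun t _ => by
      rw [AddCircle.coe_sub, AddCircle.coe_add, h1, hu]
      have h5 : ((∑ i, (c i : ℝ) * θ t i : ℝ) : AddCircle (1 : ℝ)) =
          ∑ i, (((c i : ℝ) * θ t i : ℝ) : AddCircle (1 : ℝ)) :=
        map_sum (QuotientAddGroup.mk' (AddSubgroup.zmultiples (1 : ℝ))) _ _
      rw [h5, sub_eq_zero]
      congr 1
      refine Finset.sum_congr rfl fun i _ => ?_
      rw [← zsmul_eq_mul, AddCircle.coe_zsmul, hθ]
      rfl) (mem_univ 1) (mem_univ 0)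
  have h5 : θu 1 - θu 0 = ∑ i, (c i : ℝ) * (θ 1 i - θ 0 i) +
      (e (f^[n] (γ 1)) - e (f^[n] (γ 0))) := by
    have h6 : θu 1 - (∑ i, (c i : ℝ) * θ 1 i + e (f^[n] (γ 1))) =
      θu 0 - (∑ i, (c i : ℝ) * θ 0 i + e (f^[n] (γ 0))) := h4
    simp_rw [mul_sub]
    rw [Finset.sum_sub_distrib]
    linarith
  set d := ‖θ 1 - θ 0‖ with hd
  have h6 : |∑ i, (c i : ℝ) * (θ 1 i - θ 0 i)| ≤ s * d := by
    refine (Finset.abs_sum_le_sum_abs _ _).trans ?_
    rw [hs, Finset.sum_mul]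
    refine Finset.sum_le_sum fun i _ => ?_
    rw [abs_mul]
    refine mul_le_mul_of_nonneg_left ?_ (abs_nonneg _)
    have := norm_le_pi_norm (θ 1 - θ 0) i
    rwa [Pi.sub_apply, Real.norm_eq_abs] at this
  have h7 : (n : ℝ) ^ (dd + 1) ≤ s * d + 2 * K := by
    refine h2.trans ?_
    rw [h5]
    have a1 := abs_add_le (∑ i, (c i : ℝ) * (θ 1 i - θ 0 i)) (e (f^[n] (γ 1)) - e (f^[n] (γ 0)))
    have a2 := abs_sub (e (f^[n] (γ 1))) (e (f^[n] (γ 0)))
    have a3 := hK (f^[n] (γ 1))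
    have a4 := hK (f^[n] (γ 0))
    linarith
  rw [pow_succ] at h7
  by_contra hcon
  push Not at hcon
  have h9 : s * d ≤ s * (n : ℝ) ^ dd := mul_le_mul_of_nonneg_left hcon.le hs0
  have h10 : (1 : ℝ) ≤ (n : ℝ) ^ dd := one_le_pow₀ (by linarith)
  nlinarith

variable {X : Type*} [MetricSpace X] [CompactSpace X]
  {V : Type*} [NormedAddCommGroup V] [NormedSpace ℝ V] [FiniteDimensional ℝ V]
  {f : X ≃ₜ X} {k : ℕ} (D : TD f k V)

theorem pc_bound_poly {Vc : Type*} [NormedAddCommGroup Vc] [NormedSpace ℝ Vc]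
    (Pc : (Fin k → ℝ) →L[ℝ] Vc) (Tc : Vc → Vc) (hPc : ∀ v, Pc (D.Am v) = Tc (Pc v))
    (hgr : ∃ (d : ℕ) (C : ℝ), 0 ≤ C ∧ ∀ (n : ℕ) (v : Vc), ‖Tc^[n] v‖ ≤ C * ((n : ℝ) + 1) ^ d * ‖v‖)
    {η : ℝ} (hη : D.Sc η) : ∃ (d : ℕ) (Q : ℝ), 0 ≤ Q ∧ ∀ (x y : X) (m : ℕ),
      dist (f.symm^[m] x) (f.symm^[m] y) < η →
      ‖Pc (D.Am^[m] (D.ψ (f.symm^[m] x) (f.symm^[m] y)) + tsm D x y m)‖ ≤ Q * ((m : ℝ) + 1) ^ d := by
  obtain ⟨d, C, hC, hCb⟩ := hgr
  -- bound for e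
  obtain ⟨K, hK⟩ : ∃ K, ∀ x, ‖D.e x‖ ≤ K := by
    have hcb : Continuous (fun x => ‖D.e x‖) := D.ce.norm
    rcases isEmpty_or_nonempty X with hX | hX
    · exact ⟨0, fun x => (hX.false x).elim⟩
    · obtain ⟨z, hz⟩ := hcb.exists_forall_ge' (x₀ := Classical.arbitrary X) (by
        rw [Filter.cocompact_eq_bot]; exact Filter.eventually_bot)
      exact ⟨_, hz⟩
  set L := ‖Pc‖ with hL
  have hL0 : 0 ≤ L := norm_nonneg _
  set Q : ℝ := C * L + C * L * (2 * |K|) with hQ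
  have hQ0 : 0 ≤ Q := by positivity
  have hiter : ∀ (n : ℕ) (v : Fin k → ℝ), Pc (D.Am^[n] v) = Tc^[n] (Pc v) := by
    intro n
    induction n with
    | zero => intro v; rfl
    | succ n ih => intro v; rw [Function.iterate_succ_apply, ih, hPc, ← Function.iterate_succ_apply]
  refine ⟨d + 1, Q, hQ0, ?_⟩
  intro x y m hm
  rw [map_add]
  have hm1 : (1 : ℝ) ≤ (m : ℝ) + 1 := by
    have : (0 : ℝ) ≤ m := by positivity
    linarith
  have h1 : ‖Pc (D.Am^[m] (D.ψ (f.symm^[m] x) (f.symm^[m] y)))‖ ≤ C * L * ((m : ℝ) + 1) ^ (d + 1) := by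
    rw [hiter]
    refine (hCb m _).trans ?_
    have h2 : ‖Pc (D.ψ (f.symm^[m] x) (f.symm^[m] y))‖ ≤ L * 1 := by
      refine (Pc.le_opNorm _).trans (mul_le_mul_of_nonneg_left ?_ hL0)
      have := hη.2.1 _ _ hm
      linarith
    calc C * ((m : ℝ) + 1) ^ d * ‖Pc (D.ψ (f.symm^[m] x) (f.symm^[m] y))‖
        ≤ C * ((m : ℝ) + 1) ^ d * (L * 1) := mul_le_mul_of_nonneg_left h2 (by positivity)
      _ = C * L * ((m : ℝ) + 1) ^ d := by ring
      _ ≤ C * L * ((m : ℝ) + 1) ^ (d + 1) :=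
        mul_le_mul_of_nonneg_left (pow_le_pow_right₀ hm1 (by omega)) (by positivity)
  have h2 : ‖Pc (tsm D x y m)‖ ≤ C * L * (2 * |K|) * ((m : ℝ) + 1) ^ (d + 1) := by
    unfold tsm
    rw [map_sum]
    have h3 : ∀ j ∈ Finset.range m, ‖Pc (D.Am^[j] (D.e (f.symm^[j + 1] y) -
        D.e (f.symm^[j + 1] x)))‖ ≤ C * L * (2 * |K|) * ((m : ℝ) + 1) ^ d := by
      intro j hj
      rw [hiter]
      refine (hCb j _).trans ?_
      have h4 : ‖Pc (D.e (f.symm^[j + 1] y) - D.e (f.symm^[j + 1] x))‖ ≤ L * (2 * |K|) := by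
        refine (Pc.le_opNorm _).trans (mul_le_mul_of_nonneg_left ?_ hL0)
        have a1 := norm_sub_le (D.e (f.symm^[j + 1] y)) (D.e (f.symm^[j + 1] x))
        have a2 := hK (f.symm^[j + 1] y)
        have a3 := hK (f.symm^[j + 1] x)
        have a4 := le_abs_self K
        linarith
      have h5 : ((j : ℝ) + 1) ^ d ≤ ((m : ℝ) + 1) ^ d := by
        apply pow_le_pow_left₀ (by positivity)
        have : (j : ℝ) ≤ m := by exact_mod_cast (Finset.mem_range.mp hj).le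
        linarith
      calc C * ((j : ℝ) + 1) ^ d * ‖Pc (D.e (f.symm^[j + 1] y) - D.e (f.symm^[j + 1] x))‖
          ≤ C * ((m : ℝ) + 1) ^ d * (L * (2 * |K|)) :=
            mul_le_mul (mul_le_mul_of_nonneg_left h5 hC) h4 (norm_nonneg _) (by positivity)
        _ = C * L * (2 * |K|) * ((m : ℝ) + 1) ^ d := by ring
    refine (norm_sum_le_of_le _ h3).trans ?_
    rw [Finset.sum_const, Finset.card_range, nsmul_eq_mul, pow_succ]
    have h6 : 0 ≤ C * L * (2 * |K|) * ((m : ℝ) + 1) ^ d := by positivity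
    nlinarith
  refine (norm_add_le _ _).trans ((add_le_add h1 h2).trans (le_of_eq ?_))
  rw [hQ]; ring

/-- if the cocycle vanishes, then the displacements are bounded by a polynomial -/
theorem not_super {Vc : Type*} [NormedAddCommGroup Vc] [NormedSpace ℝ Vc]
    (Pc : (Fin k → ℝ) →L[ℝ] Vc) (Tc : Vc → Vc) (hPc : ∀ v, Pc (D.Am v) = Tc (Pc v))
    (hgr : ∃ (d : ℕ) (C : ℝ), 0 ≤ C ∧ ∀ (n : ℕ) (v : Vc), ‖Tc^[n] v‖ ≤ C * ((n : ℝ) + 1) ^ d * ‖v‖)
    (hn : ∀ v, ‖v‖ ≤ ‖D.P v‖ + ‖Pc v‖) {η : ℝ} (hη : D.Sc η) (γ : C(I, X))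
    (hγ : UnstablePath f.symm γ) (hsm : ∀ j, dist (f.symm^[j] (γ 0)) (f.symm^[j] (γ 1)) < η)
    (h0 : D.κ (γ 0) (γ 1) = 0) : ¬ SuperVec f D.φ γ := by
  intro hsup
  obtain ⟨R, hR⟩ : ∃ R, ∀ x, ‖D.b x‖ ≤ R := by
    have hcb : Continuous (fun x => ‖D.b x‖) := (D.b_cont f.continuous).norm
    obtain ⟨z, hz⟩ := hcb.exists_forall_ge' (x₀ := γ 0) (by
      rw [Filter.cocompact_eq_bot]; exact Filter.eventually_bot)
    exact ⟨_, hz⟩
  obtain ⟨d, Q, hQ0, hQ⟩ := pc_bound_poly D Pc Tc hPc hgr hη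
  have hbd : ∀ (n : ℕ) (θ : C(I, Fin k → ℝ)),
      (∀ t i, ((θ t i : ℝ) : AddCircle (1 : ℝ)) = D.φ (f^[n] (γ t)) i) →
      ‖θ 1 - θ 0‖ ≤ 2 * R + Q * ((n : ℝ) + 1) ^ d := by
    intro n θ hθ
    let γn : C(I, X) := ⟨fun t => f^[n] (γ t), (f.continuous.iterate n).comp γ.continuous⟩
    have hun := unst_fwd hγ n
    have hback : ∀ z : X, f.symm^[n] (f^[n] z) = z := fun z => iterL f n z
    have hcl : ∀ j ≥ n, dist (f.symm^[j] (γn 0)) (f.symm^[j] (γn 1)) < η := by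
      intro j hj
      have e1 : ∀ z : X, f.symm^[j] (f^[n] z) = f.symm^[j - n] z := fun z => by
        have : j = (j - n) + n := by omega
        conv_lhs => rw [this]
        rw [Function.iterate_add_apply, iterL]
      show dist (f.symm^[j] (f^[n] (γ 0))) (f.symm^[j] (f^[n] (γ 1))) < η
      rw [e1, e1]
      exact hsm _
    have hform := disp_formula D hη γn θ hun hθ hcl
    have h1 : ‖Pc (θ 1 - θ 0)‖ ≤ Q * ((n : ℝ) + 1) ^ d := by
      rw [hform]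
      exact hQ _ _ _ (hcl n le_rfl)
    -- the expanding part
    obtain ⟨m₀, hm₀⟩ := eventually_atTop.mp ((uniform_path.mp hγ) η hη.1)
    let γs : C(I, X) := ⟨fun t => f.symm^[m₀] (γ t), (f.symm.continuous.iterate m₀).comp γ.continuous⟩
    obtain ⟨θs, hθs1, hθs2⟩ := small_lift D hη γs (hm₀ m₀ le_rfl)
    have hκ : ∀ j, D.κ (f.symm^[j] (γ 0)) (f.symm^[j] (γ 1)) = 0 := by
      intro j
      induction j with
      | zero => exact h0
      | succ j ih =>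
        have h2 := TD.κ_f hη (hsm (j + 1))
        have e1 : ∀ z : X, f (f.symm^[j + 1] z) = f.symm^[j] z := fun z => by
          rw [Function.iterate_succ_apply' f.symm, f.apply_symm_apply]
        rw [e1, e1, ih] at h2
        exact (D.B.map_eq_zero_iff.mp h2.symm)
    have h0' : D.P (θs 1 - θs 0) + (D.b (γs 1) - D.b (γs 0)) = 0 := by
      rw [hθs2]
      exact hκ m₀
    obtain ⟨γ', θ', k1, k2, k3⟩ := iter_lift D γs θs hθs1 h0' (m₀ + n)
    have e2 : ∀ t, γ' t = γn t := by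
      intro t
      rw [k1]
      show f^[m₀ + n] (f.symm^[m₀] (γ t)) = f^[n] (γ t)
      rw [Nat.add_comm m₀ n, Function.iterate_add_apply, iterR]
    have h3 : θ 1 - θ 0 = θ' 1 - θ' 0 := lift_unique (φ := D.φ) γn θ θ' hθ
      (fun t i => by rw [k2, e2])
    have h4 : ‖D.P (θ 1 - θ 0)‖ ≤ 2 * R := by
      rw [h3]
      have e3 : D.P (θ' 1 - θ' 0) = D.b (γ' 0) - D.b (γ' 1) := by
        have := k3
        rw [add_eq_zero_iff_eq_neg] at this
        rw [this]; abel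
      rw [e3]
      have := norm_sub_le (D.b (γ' 0)) (D.b (γ' 1))
      have := hR (γ' 0)
      have := hR (γ' 1)
      linarith
    have h5 := hn (θ 1 - θ 0)
    linarith
  -- contradiction
  have hR0 : 0 ≤ R := (norm_nonneg _).trans (hR (γ 0))
  have hlim : Tendsto (fun n : ℕ => (n : ℝ)) atTop atTop := tendsto_natCast_atTop_atTop
  obtain ⟨n, ⟨θ, hθ, hle⟩, hgt⟩ := ((hsup (d + 1)).and_eventually
    (hlim.eventually_gt_atTop (2 * R + Q * 2 ^ d + 1))).exists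
  have h1 := hbd n θ hθ
  have hp2 : (0 : ℝ) ≤ Q * 2 ^ d := by positivity
  have hn1 : (1 : ℝ) ≤ n := by linarith
  have hp : (1 : ℝ) ≤ (n : ℝ) ^ d := one_le_pow₀ hn1
  have h2 : ((n : ℝ) + 1) ^ d ≤ 2 ^ d * (n : ℝ) ^ d := by
    rw [← mul_pow]
    exact pow_le_pow_left₀ (by positivity) (by linarith) d
  have h3 : Q * ((n : ℝ) + 1) ^ d ≤ Q * (2 ^ d * (n : ℝ) ^ d) := mul_le_mul_of_nonneg_left h2 hQ0
  rw [pow_succ] at hle
  have h4 : (2 * R + Q * 2 ^ d + 1) * (n : ℝ) ^ d < (n : ℝ) ^ d * n := by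
    rw [mul_comm]
    exact mul_lt_mul_of_pos_left hgt (by linarith)
  have h5 : 2 * R ≤ 2 * R * (n : ℝ) ^ d := le_mul_of_one_le_right (by linarith) hp
  nlinarith

end Pool.Agent.Q227.AG
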