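import Pool.Agent.Q227.AG.Super
import Pool.Agent.Q227.AT.Main
import Pool.Agent.W740.TC.Final

set_option autoImplicit false
set_option linter.unusedSectionVars false

open Filter Topology Set Metric
open scoped Manifold ContDiff

namespace Pool.Agent.Q227.AG

open Pool.Agent.H721R2 Pool.Agent.H789R2.AN Pool.Agent.H789R2.GP Pool.Agent.W740.TC
open Pool.Agent.H779R2.To (IsToral)
open Pool.Agent.Q227.AT (back_small fsym_eq)

section abs

open unitInterval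

variable {X : Type*} [MetricSpace X] [CompactSpace X]

/-- small paths in the local unstable sets -/
theorem path_of_SR (hX : ULC X) {f g : X ≃ₜ X} {N : ℕ} (hN : 1 ≤ N) (hg : ∀ x, g x = f^[N] x)
    {c : ℝ} (h : LP g c) {r : ℝ} (hr : 0 < r) :
    ∃ η > 0, ∀ x y, SR g.symm η x y → ∃ γ : C(I, X), γ 0 = x ∧ γ 1 = y ∧
      UnstablePath f.symm γ ∧ ∀ m t, dist (f.symm^[m] (γ 0)) (f.symm^[m] (γ t)) < r := by
  have hc := h.c_pos
  obtain ⟨ηb, hηb, hb⟩ := back_small hN hg hr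
  obtain ⟨η, hη, h1⟩ := leaf_path h.symm hX (min ηb c) (lt_min hηb hc)
  refine ⟨η, hη, fun x y hxy => ?_⟩
  obtain ⟨υ, hυ0, hυ1, hυ⟩ := h1 ⟨x⟩ ⟨y⟩ ((SM.dist_le _ _ hη.le).mpr hxy)
  let γ : C(I, X) := ⟨fun t => (υ t).val, (SM.continuous_iter_val 0).comp υ.continuous⟩
  have hγ0 : γ 0 = x := by
    show (υ 0).val = x
    rw [hυ0]
  have hγ1 : γ 1 = y := by
    show (υ 1).val = y
    rw [hυ1]
  have hγ : ∀ t, SR g.symm (min ηb c) x (γ t) := fun t =>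
    (SM.dist_le _ _ (lt_min hηb hc).le).mp (hυ t)
  refine ⟨γ, hγ0, hγ1, ?_, fun m t => ?_⟩
  · rw [uniform_path]
    intro ε hε
    obtain ⟨δ, hδ, k4⟩ := T1_unif f.symm N hε
    have h5 : Tendsto (fun n : ℕ => c * (1 / 2 : ℝ) ^ n) atTop (𝓝 0) := by
      have := (tendsto_pow_atTop_nhds_zero_of_lt_one (by norm_num : (0:ℝ) ≤ 1 / 2)
        (by norm_num)).const_mul c
      simpa using this
    obtain ⟨q₀, hq₀⟩ := eventually_atTop.mp ((tendsto_order.mp h5).2 δ hδ)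
    rw [eventually_atTop]
    refine ⟨N * q₀, fun m hm t => ?_⟩
    rw [hγ0, fsym_eq hg, fsym_eq hg m (γ t)]
    refine k4 _ (Nat.mod_lt _ (by omega)).le _ _
      (lt_of_le_of_lt (h.cU _ _ ((hγ t).mono (min_le_right _ _)) _) (hq₀ _ ?_))
    exact (Nat.le_div_iff_mul_le (by omega)).mpr (by rwa [Nat.mul_comm])
  · rw [hγ0]
    exact hb x (γ t) ((hγ t).mono (min_le_left _ _)) m

/-- The displacements of the short paths in the unstable leaves grow faster than polynomials. -/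
def ExpDisp {M : Type*} [TopologicalSpace M] {k : ℕ} (f finv : M → M)
    (φ : M → Fin k → AddCircle (1 : ℝ)) : Prop :=
  ∃ 𝒰 ∈ 𝓝ˢ (diagonal M), ∀ γ : C(I, M), UnstablePath finv γ →
    (∀ n t, (finv^[n] (γ 0), finv^[n] (γ t)) ∈ 𝒰) → γ 0 ≠ γ 1 → SuperVec f φ γ

/-- **inj** from superpolynomial growth -/
theorem inj_of_grow {V : Type*} [NormedAddCommGroup V] [NormedSpace ℝ V] [FiniteDimensional ℝ V]
    {f : X ≃ₜ X} {k : ℕ} (D : TD f k V)
    {Vc : Type*} [NormedAddCommGroup Vc] [NormedSpace ℝ Vc]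
    (Pc : (Fin k → ℝ) →L[ℝ] Vc) (Tc : Vc → Vc) (hPc : ∀ v, Pc (D.Am v) = Tc (Pc v))
    (hgr : ∃ (d : ℕ) (C : ℝ), 0 ≤ C ∧ ∀ (n : ℕ) (v : Vc), ‖Tc^[n] v‖ ≤ C * ((n : ℝ) + 1) ^ d * ‖v‖)
    (hn : ∀ v, ‖v‖ ≤ ‖D.P v‖ + ‖Pc v‖) (hX : ULC X)
    {g : X ≃ₜ X} {N : ℕ} (hN : 1 ≤ N) (hg : ∀ x, g x = f^[N] x) {c : ℝ} (h : LP g c)
    (hU : ExpDisp f f.symm D.φ) :
    ∃ η > 0, ∀ x y, SR g.symm η x y → D.κ x y = 0 → x = y := by
  obtain ⟨η₀, hη₀⟩ := D.exists_sc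
  obtain ⟨𝒰, h𝒰, hgrow⟩ := hU
  rw [nhdsSet_diagonal_eq_uniformity] at h𝒰
  obtain ⟨ρ, hρ, hρ'⟩ := Metric.mem_uniformity_dist.mp h𝒰
  obtain ⟨η, hη, h1⟩ := path_of_SR hX hN hg h (lt_min hη₀.1 hρ)
  refine ⟨η, hη, fun x y hxy h0 => ?_⟩
  obtain ⟨γ, g0, g1, g2, g3⟩ := h1 x y hxy
  by_contra hne
  refine not_super D Pc Tc hPc hgr hn hη₀ γ g2 (fun j => (g3 j 1).trans_le (min_le_left _ _))
    (by rw [g0, g1]; exact h0) (hgrow γ g2 (fun n t => hρ' ((g3 n t).trans_le (min_le_right _ _)))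
      (by rw [g0, g1]; exact hne))

end abs

section manifold

variable {E : Type*} [NormedAddCommGroup E] [NormedSpace ℝ E] [FiniteDimensional ℝ E]
  {M : Type*} [TopologicalSpace M] [T2Space M] [CompactSpace M] [ConnectedSpace M]
  [ChartedSpace E M] [IsManifold 𝓘(ℝ, E) ∞ M]

theorem man_exp (f : Diffeomorph 𝓘(ℝ, E) 𝓘(ℝ, E) M M 1)
    (Es Eu : ∀ x : M, Submodule ℝ (TangentSpace 𝓘(ℝ, E) x)) (hA : IsAnosov f Es Eu)
    {k : ℕ} (φ : M → Fin k → AddCircle (1 : ℝ)) (hφ : Continuous φ)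
    (A : Matrix (Fin k) (Fin k) ℤ) (e : M → Fin k → ℝ) (hec : Continuous e)
    (hφe : ∀ x i, φ (f x) i = ∑ j, A i j • φ x j + ((e x i : ℝ) : AddCircle (1 : ℝ)))
    (hU : ExpDisp f f.symm φ) : TopTransitive f ∧ IsToral f ∧
      (∃ q : E → M, IsCoveringMap q ∧ Function.Surjective q) ∧ Dense (Function.periodicPts f) := by
  set T := cx A with hT
  have hc := W_compl T
  let Pu : (Fin k → ℝ) →ₗ[ℝ] Wu T :=
    (((Wu T).projectionOnto (Wc T) hc).restrictScalars ℝ) ∘ₗ inc k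
  let Pc : (Fin k → ℝ) →ₗ[ℝ] Wc T :=
    (((Wc T).projectionOnto (Wu T) hc.symm).restrictScalars ℝ) ∘ₗ inc k
  have hsum : ∀ v, inc k v = (Pu v : Fin k → ℂ) + (Pc v : Fin k → ℂ) := fun v =>
    (Submodule.projection_add_projection_eq_self hc (inc k v)).symm
  have huniq : ∀ (a a' : Wu T) (b b' : Wc T),
      (a : Fin k → ℂ) + (b : Fin k → ℂ) = (a' : Fin k → ℂ) + (b' : Fin k → ℂ) →
      a = a' ∧ b = b' := by
    intro a a' b b' h
    have h1 : (a : Fin k → ℂ) - a' = b' - b := by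
      rw [sub_eq_sub_iff_add_eq_add, h, add_comm]
    have h2 : (a : Fin k → ℂ) - a' ∈ Wu T := (Wu T).sub_mem a.2 a'.2
    have h3 : (a : Fin k → ℂ) - a' ∈ Wc T := by rw [h1]; exact (Wc T).sub_mem b'.2 b.2
    have h4 := hc.disjoint.le_bot ⟨h2, h3⟩
    rw [Submodule.mem_bot] at h4
    refine ⟨Subtype.ext (sub_eq_zero.mp h4), Subtype.ext ?_⟩
    rw [h4] at h1
    exact (sub_eq_zero.mp h1.symm).symm
  have hcomm : ∀ v : Fin k → ℝ, Pu (fun i => ∑ j, (A i j : ℝ) * v j) = Tu T (Pu v) ∧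
      Pc (fun i => ∑ j, (A i j : ℝ) * v j) = Tc T (Pc v) := by
    intro v
    apply huniq
    rw [← hsum, ← cx_inc, Tu_coe, Tc_coe, ← map_add, ← hsum]
  have hpowu : ∀ (n : ℕ) (v : Wu T), (Tu T)^[n] v = ((Tu T) ^ n) v := fun n v => by
    rw [Module.End.pow_apply]
  have hpowc : ∀ (n : ℕ) (v : Wc T), (Tc T)^[n] v = ((Tc T) ^ n) v := fun n v => by
    rw [Module.End.pow_apply]
  have hBexp : Expanding ((Tu T).restrictScalars ℝ : Wu T →ₗ[ℝ] Wu T) := by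
    obtain ⟨C, l, h0, h1, h2⟩ := Tu_exp T
    refine ⟨C, l, h0, h1, fun n v => ?_⟩
    have h3 : ((Tu T).restrictScalars ℝ : Wu T →ₗ[ℝ] Wu T)^[n] v = ((Tu T) ^ n) v := by
      rw [← hpowu]
      rfl
    rw [h3]
    exact h2 n v
  obtain ⟨m, ee, hee, hemb, hinj⟩ := exists_embedding_euclidean_of_compact (I := 𝓘(ℝ, E)) (M := M)
  let _ : MetricSpace M := hemb.isEmbedding.comapMetricSpace ee
  have hiso : ∀ x y : M, dist x y = ‖ee x - ee y‖ := fun x y => dist_eq_norm (ee x) (ee y)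
  have he1 : ContMDiff 𝓘(ℝ, E) (𝓡 m) 1 ee := hee.of_le (by simp)
  obtain ⟨D, hD1, hDA, hD2, N₀, hN₀⟩ := exists_TD f.toHomeomorph φ hφ A e hec hφe
    ((Tu T).restrictScalars ℝ : Wu T →ₗ[ℝ] Wu T) hBexp Pu (fun v => (hcomm v).1)
  obtain ⟨n, S, hn, hg, hSe, hVs, hVu⟩ := exists_sys_ge hiso he1 hinj f Es Eu hA (max N₀ 1)
  have hn1 : 1 ≤ n := (le_max_right _ _).trans hn
  have hgi : ∀ x, S.g x = (f.toHomeomorph)^[n] x := fun x => by
    rw [hg]; rfl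
  obtain ⟨c', h⟩ := exists_LP S
  have : ProperSpace E := FiniteDimensional.proper_real E
  have hX : ULC M := ulc_of_charted (X := M) (E := E)
  have hU' : ExpDisp f.toHomeomorph f.toHomeomorph.symm D.φ := by
    rw [hD1]
    exact hU
  obtain ⟨η₁, hη₁, hinj'⟩ := inj_of_grow D (LinearMap.toContinuousLinearMap Pc) (Tc T) (fun v => by
      have h2 : D.Am v = fun i => ∑ j, (A i j : ℝ) * v j := by
        unfold TD.Am
        rw [hDA]
      rw [h2]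
      exact (hcomm v).2) (by
      obtain ⟨d, C, hC, h2⟩ := Tc_poly T
      exact ⟨d, C, hC, fun n v => by rw [hpowc]; exact h2 n v⟩) (fun v => by
      have h2 : ‖v‖ = ‖(Pu v : Fin k → ℂ) + (Pc v : Fin k → ℂ)‖ := by
        rw [← hsum, inc_norm]
      rw [h2, hD2]
      exact norm_add_le _ _) hX hn1 hgi h hU'
  obtain ⟨C⟩ := exists_coc D hgi (hN₀ n ((le_max_left _ _).trans hn)) hη₁ hinj'
  obtain ⟨h1, h2, q₀, hq₀⟩ := abs_main (E' := E) S C f.toHomeomorph n hn1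
    (fun x => (hgi x).symm)
  refine ⟨fun U W hU hUn hW hWn => ?_, h2, ⟨q₀, hq₀, covering_surj hq₀⟩, fun x => ?_⟩
  swap
  · rw [Metric.mem_closure_iff]
    intro ε hε
    obtain ⟨y, N, hN1, hy, hd⟩ := Pool.Agent.H779R2.An.periodic_dense S h1 x ε hε
    refine ⟨y, ⟨n * N, Nat.mul_pos hn1 hN1, ?_⟩, by rwa [dist_comm]⟩
    rw [Function.IsPeriodicPt, Function.IsFixedPt]
    have h3 : S.g^[N] = f^[n * N] := by
      rw [Function.iterate_mul]
      congr 1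
      funext x
      exact hgi x
    rw [← h3]
    exact hy
  obtain ⟨q, hq⟩ := h1 U W hU hUn hW hWn
  refine ⟨n * q, ?_⟩
  have h3 : S.g^[q] = f^[n * q] := by
    rw [Function.iterate_mul]
    congr 1
    funext x
    exact hgi x
  rw [h3] at hq
  exact hq

end manifold

section conv

open unitInterval

/-- polynomial displacement implies exponential growth -/
theorem exp_of_poly {M : Type*} [TopologicalSpace M] [T2Space M] (f : M ≃ₜ M) {k : ℕ}
    (φ : C(M, Fin k → AddCircle (1 : ℝ))) (h : PolyDisp f.symm φ) (γ : C(I, M))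
    (hγ : UnstablePath f.symm γ) (hne : γ 0 ≠ γ 1) : GrowsExp f φ γ := by
  have h𝒰 : ({(γ 0, γ 1)}ᶜ : Set (M × M)) ∈ 𝓝ˢ (diagonal M) := by
    refine isOpen_compl_singleton.mem_nhdsSet.mpr ?_
    rintro ⟨a, b⟩ hab hab'
    have h1 : a = b := hab
    have h2 : (a, b) = (γ 0, γ 1) := hab'
    rw [Prod.mk.injEq] at h2
    exact hne (h2.1.symm.trans (h1.trans h2.2))
  obtain ⟨a, b, hab⟩ := h _ h𝒰
  have hiter : ∀ (n m : ℕ) (z : M), n ≤ m → f.symm^[m] (f^[n] z) = f.symm^[m - n] z := by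
    intro n m z hnm
    have : m = (m - n) + n := by omega
    conv_lhs => rw [this]
    rw [Function.iterate_add_apply]
    congr 1
    exact (Function.LeftInverse.iterate f.symm_apply_apply n) z
  have hun : ∀ n, UnstablePath f.symm (⟨fun t => f^[n] (γ t),
      (f.continuous.iterate n).comp γ.continuous⟩ : C(I, M)) := by
    intro n 𝒰 h𝒰
    obtain ⟨m₀, hm₀⟩ := eventually_atTop.mp (hγ 𝒰 h𝒰)
    refine eventually_atTop.mpr ⟨m₀ + n, fun m hm t => ?_⟩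
    show (f.symm^[m] (f^[n] (γ 0)), f.symm^[m] (f^[n] (γ t))) ∈ 𝒰
    rw [hiter n m _ (by omega), hiter n m _ (by omega)]
    exact hm₀ (m - n) (by omega) t
  have hkey : ∀ n : ℕ, ∃ θ : C(I, Fin k → ℝ),
      (∀ t i, ((θ t i : ℝ) : AddCircle (1 : ℝ)) = φ (f^[n] (γ t)) i) ∧
      (n : ℝ) < a * Real.log (1 + ‖θ 1 - θ 0‖) + b := by
    intro n
    obtain ⟨θ, hθ⟩ := exists_lift_path (φ.comp (⟨fun t => f^[n] (γ t),
      (f.continuous.iterate n).comp γ.continuous⟩ : C(I, M)))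
    refine ⟨θ, hθ, ?_⟩
    by_contra hcon
    push Not at hcon
    have h1 := hab _ θ (hun n) hθ n hcon
    apply h1
    show (f.symm^[n] (f^[n] (γ 0)), f.symm^[n] (f^[n] (γ 1))) = (γ 0, γ 1)
    rw [hiter n n _ le_rfl, hiter n n _ le_rfl, Nat.sub_self]
    rfl
  have ha : 0 < a := by
    obtain ⟨n, hn⟩ := exists_nat_gt b
    obtain ⟨θ, -, h2⟩ := hkey n
    have h3 : 0 ≤ Real.log (1 + ‖θ 1 - θ 0‖) := Real.log_nonneg (by linarith [norm_nonneg (θ 1 - θ 0)])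
    by_contra h4
    push Not at h4
    nlinarith [mul_nonpos_of_nonpos_of_nonneg h4 h3]
  refine ⟨Real.exp (1 / (2 * a)), Real.one_lt_exp_iff.mpr (by positivity), ?_⟩
  apply Eventually.frequently
  have hlim : Tendsto (fun n : ℕ => ((1 / (2 * a)) * (n : ℝ))) atTop atTop :=
    tendsto_natCast_atTop_atTop.const_mul_atTop (by positivity)
  filter_upwards [hlim.eventually_ge_atTop (b / a + Real.log 2),
    hlim.eventually_ge_atTop 0] with n hn hn0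
  obtain ⟨θ, h1, h2⟩ := hkey n
  refine ⟨θ, h1, ?_⟩
  set d := ‖θ 1 - θ 0‖ with hd
  have hd0 : 0 ≤ d := norm_nonneg _
  rw [← Real.exp_nat_mul]
  have h3 : ((n : ℝ) - b) / a < Real.log (1 + d) := by
    rw [div_lt_iff₀ ha]
    linarith
  have h4 : Real.exp (((n : ℝ) - b) / a) < 1 + d := by
    rw [← Real.lt_log_iff_exp_lt (by linarith)]
    exact h3
  have h5 : (n : ℝ) * (1 / (2 * a)) + Real.log 2 ≤ ((n : ℝ) - b) / a := by
    have e1 : ((n : ℝ) - b) / a = 2 * (1 / (2 * a) * n) - b / a := by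
      field_simp
    rw [e1]
    linarith
  have h6 : 2 * Real.exp ((n : ℝ) * (1 / (2 * a))) ≤ Real.exp (((n : ℝ) - b) / a) := by
    calc 2 * Real.exp ((n : ℝ) * (1 / (2 * a))) = Real.exp ((n : ℝ) * (1 / (2 * a)) + Real.log 2) := by
          rw [Real.exp_add, Real.exp_log (by norm_num)]; ring
      _ ≤ _ := Real.exp_le_exp.mpr h5
  have h7 : 1 ≤ Real.exp ((n : ℝ) * (1 / (2 * a))) := by
    apply Real.one_le_exp
    rw [mul_comm]
    exact hn0
  linarith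

end conv

end Pool.Agent.Q227.AG
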